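import Mathlib
import Pool.Agent.Helper151_AB.Combine2

set_option autoImplicit false

/-!
# `k + O((k ^ 2 log R) ^ (1/3))` common independent sets

Let `M₁` and `M₂` be arbitrary matroids on a finite set `S`, both `k`-coverable, and let
`|S| ≤ k R`; for instance `R` can be the rank of one of the two matroids. Then `S` can be
partitioned into `m` common independent sets with
`m ≤ k + 1100 k ^ (2/3) (log (R + 1)) ^ (1/3)`. In particular `m ≤ (1 + o(1)) k` when `k / log R`
tends to infinity, whereas the bound of Aharoni and Berger is `2 k`.

Idea of the proof. If `S` is `a`-coverable for both matroids, then the constant vector `1 / a` is in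
the common independence polytope, so it is an average of `2 ^ L` common independent sets, up to a
small error. These are merged pairwise along a binary tree. One merge replaces `I` and `J` by a
single common independent subset of `I ∪ J`, through a sequence of exchanges along short alternating
walks (`kstar` in `KGen.lean`), in such a way that a sum of exponential functions of the sizes of
the intersections with given sets does not grow by much (`merge`, `merge2`, `tree`, `round`). The
outcome is one common independent set that has, up to a small relative error, at least the expected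
number of elements in each large closed set. Peeling off such sets one at a time, and following the
sum over all pairs (matroid, closed set) of an exponential potential, one sees that every peeled set
makes the coverability parameter smaller by almost one (`peel_step`), until this parameter `a` is of
the order of `log |S|`. What is left then is partitioned into at most `2 a + 1` common independent
sets (`two_part` in `Opt.lean`). For `k` larger than `2 R ^ 2` the set `S` is first made smaller by
exact peeling (`peel_exact`), which is why `log R` can stand for `log |S|`.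
-/

namespace Pool.Agent.Results.MP_aa9a84_co.Asymptotic

open Finset
open Pool.Agent.H478R3.Borsuk (IsRF inter)
open Pool.Agent.Helper151_AB

theorem result (α : Type) [Fintype α] (M₁ M₂ : Matroid α)
    (_hE₁ : M₁.E = Set.univ) (_hE₂ : M₂.E = Set.univ) (k R : ℕ)
    (hR : Fintype.card α ≤ k * R)
    (hk₁ : ∀ X : Finset α, ∃ I : Finset α, I ⊆ X ∧ M₁.Indep (↑I : Set α) ∧ X.card ≤ k * I.card)
    (hk₂ : ∀ X : Finset α, ∃ I : Finset α, I ⊆ X ∧ M₂.Indep (↑I : Set α) ∧ X.card ≤ k * I.card) :
    ∃ m : ℕ, (m : ℝ) ≤ (k : ℝ) +
        1100 * (k : ℝ) ^ (2 / 3 : ℝ) * Real.log ((R : ℝ) + 1) ^ (1 / 3 : ℝ) ∧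
      ∃ f : α → Fin m, ∀ j : Fin m,
        M₁.Indep {x : α | f x = j} ∧ M₂.Indep {x : α | f x = j} := by
  classical
  obtain ⟨⟨m, ⟨f, hf1, hf2⟩, hm⟩, _⟩ := combined2 (r := fun b => bif b then rf M₁ else rf M₂)
    (by
      intro b
      cases b
      · exact rf_isRF M₂
      · exact rf_isRF M₁) hR
    (by
      intro b X
      cases b
      · exact rf_bound M₂ k X (hk₂ X)
      · exact rf_bound M₁ k X (hk₁ X))
  refine ⟨m, hm, fun x => ⟨f x, hf1 x (mem_univ x)⟩, fun j => ?_⟩
  have key : ∀ M : Matroid α, Ind (rf M) (univ.filter (fun e => f e = (j : ℕ))) →
      M.Indep {x : α | (⟨f x, hf1 x (mem_univ x)⟩ : Fin m) = j} := by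
    intro M hM
    have h1 := (ind_iff M _).1 hM
    have h2 : ((univ.filter (fun e => f e = (j : ℕ)) : Finset α) : Set α) =
        {x : α | (⟨f x, hf1 x (mem_univ x)⟩ : Fin m) = j} := by
      ext x
      simp [Fin.ext_iff]
    rw [h2] at h1
    exact h1
  exact ⟨key M₁ (hf2 j true), key M₂ (hf2 j false)⟩

end Pool.Agent.Results.MP_aa9a84_co.Asymptotic
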