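import Mathlib
import Pool.Agent.Helper151_AB.PavExt

set_option autoImplicit false

/-!
# One matroid without short circuits, the other one arbitrary

Let `M₁` and `M₂` be matroids on a finite set `S`, both `k`-coverable, and let every circuit of
`M₁` have at least `|S| / k` elements. (Every paving matroid has this property, see
`long_of_paving` below.) Nothing more is assumed on `M₂`. Then all elements of `S` but at most one
can be partitioned into `k` common independent sets; in particular `S` is the union of `k + 1`
disjoint common independent sets. The number `k` would not be enough, even without the last class: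
the cycle matroid of `K₄` is paving.

Idea of the proof. After the addition of free elements and a truncation both matroids have rank
`R` and `k R` elements, and all sets with fewer than `R` elements are independent in `M₁`. Among
the partitions into `k` bases of the second matroid take one with the fewest classes that are
dependent in the first one. Such a bad class spans a hyperplane of the first matroid. If two bad
classes span different hyperplanes, a symmetric exchange between them makes one of them good. If
all bad classes lie in one hyperplane, some good class has two elements outside it, and two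
exchanges make the number of bad classes smaller. So at most one class is bad, and one of its
elements is left out.
-/

namespace Pool.Agent.Results.MP_aa9a84_co.LongCircuits

open Finset
open Pool.Agent.H478R3.Borsuk (IsRF inter)
open Pool.Agent.Helper151_AB

theorem result (α : Type) [Fintype α] (M₁ M₂ : Matroid α)
    (_hE₁ : M₁.E = Set.univ) (_hE₂ : M₂.E = Set.univ) (k : ℕ)
    (hk₁ : ∀ X : Finset α, ∃ I : Finset α, I ⊆ X ∧ M₁.Indep (↑I : Set α) ∧ X.card ≤ k * I.card)
    (hk₂ : ∀ X : Finset α, ∃ I : Finset α, I ⊆ X ∧ M₂.Indep (↑I : Set α) ∧ X.card ≤ k * I.card)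
    (hlong : ∀ X : Finset α, k * X.card < Fintype.card α → M₁.Indep (↑X : Set α)) :
    ∃ f : α → Fin (k + 1),
      (∀ j : Fin (k + 1), M₁.Indep {x : α | f x = j} ∧ M₂.Indep {x : α | f x = j}) ∧
      ∀ x y : α, f x = Fin.last k → f y = Fin.last k → x = y := by
  classical
  have h1 := rf_isRF M₁
  have h2 := rf_isRF M₂
  have hc1 : ∀ X : Finset α, X.card ≤ k * rf M₁ X := fun X => rf_bound M₁ k X (hk₁ X)
  have hc2 : ∀ X : Finset α, X.card ≤ k * rf M₂ X := fun X => rf_bound M₂ k X (hk₂ X)
  have hR : ∃ R, Fintype.card α ≤ k * R ∧ ∀ m, m < R → k * m < Fintype.card α := by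
    have hex : ∃ R, Fintype.card α ≤ k * R := ⟨rf M₁ univ, by
      have := hc1 univ
      rwa [card_univ] at this⟩
    refine ⟨Nat.find hex, Nat.find_spec hex, fun m hm => ?_⟩
    exact not_le.1 (Nat.find_min hex hm)
  obtain ⟨R, hn, hmin⟩ := hR
  obtain ⟨g, hg, hlast⟩ := pav_ext h1 h2 hc1 hc2 hn
    (fun X hX => (ind_iff M₁ X).2 (hlong X (hmin _ hX)))
  refine ⟨g, fun j => ⟨indep_cls M₁ (hg j).1, indep_cls M₂ (hg j).2⟩, ?_⟩
  intro x y hx hy
  rw [card_le_one] at hlast
  exact hlast x (by simp [hx]) y (by simp [hy])

/-- Every paving matroid satisfies the hypothesis on `M₁`. -/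
theorem long_of_paving (α : Type) [Fintype α] (M : Matroid α) (hE : M.E = Set.univ) (k : ℕ)
    (hk : ∀ X : Finset α, ∃ I : Finset α, I ⊆ X ∧ M.Indep (↑I : Set α) ∧ X.card ≤ k * I.card)
    (hpav : ∀ X : Finset α, (X.card : ℕ∞) < M.eRank → M.Indep (↑X : Set α)) (X : Finset α)
    (hX : k * X.card < Fintype.card α) : M.Indep (↑X : Set α) := by
  classical
  apply hpav
  have e1 := rf_cast M univ
  rw [coe_univ, ← hE, M.eRk_ground] at e1
  rw [← e1]
  have e2 := rf_bound M k univ (hk univ)
  rw [card_univ] at e2
  have e3 : k * X.card < k * rf M univ := lt_of_lt_of_le hX e2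
  have e4 : X.card < rf M univ := lt_of_mul_lt_mul_left e3 (Nat.zero_le k)
  exact_mod_cast e4

end Pool.Agent.Results.MP_aa9a84_co.LongCircuits
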