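import Mathlib
import Pool.Agent.Helper151_AB.Combine2

set_option autoImplicit false

/-!
# The number of common independent sets exceeds `k` by a function of the rank only

Let `M₁` and `M₂` be arbitrary matroids on a finite set `S`, both `k`-coverable, and let
`|S| ≤ k R`; for instance `R` can be the rank of one of the two matroids. Then `S` can be
partitioned into at most `k + 500 R (log (R + 1)) ^ 2` common independent sets, however large
`k` is.

Idea of the proof. After the addition of free elements and a truncation both matroids have rank `R`
and `k R` elements.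

Exact peeling (`peel_exact`): if `k ≥ 2 R ^ 2 - R`, there is a common basis `B` such that the
complement of `B` is `(k - 1)`-coverable for both matroids. Otherwise one finds, one after the
other, common bases `C₀, C₁, …` and closed sets `X₁, X₂, …` such that `C_i` meets `X₁, …, X_i` in
maximum independent subsets, whereas `C_i` misses so many elements of `X_{i+1}` that the complement
of `C_i` is not `(k - 1)`-coverable there; the next `C_{i+1}` exists since the sum of the numbers
`k r(X_j) - |X_j|` is less than `k` and the constant vector `1 / k` is a convex combination of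
common bases. For each matroid let `P_i` be the set of the pairs `(a, a')` of elements of the last
basis such that every one of `X₁, …, X_i` that contains `a` contains `a'`. Then each step removes
at least `k r(X_{i+1}) - |X_{i+1}| + 1` pairs (`crossing`), and there are only `2 R ^ 2` pairs at
the beginning.

From `k = 2 R ^ 2` down to about `R log R` one peels members of fractional decompositions
(`plain_phase`): when `k` is made larger by `40 R log (R + 1)` once, half of the classes can be
peeled so that coverability is kept, by an exponential potential. The remaining part, which is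
`a`-coverable for some `a` of the order of `R log R`, is partitioned into at most `2 a + 1` common
independent sets (`two_part` in `Opt.lean`).
-/

namespace Pool.Agent.Results.MP_aa9a84_co.RankBound

open Finset
open Pool.Agent.H478R3.Borsuk (IsRF inter)
open Pool.Agent.Helper151_AB

theorem result (α : Type) [Fintype α] (M₁ M₂ : Matroid α)
    (_hE₁ : M₁.E = Set.univ) (_hE₂ : M₂.E = Set.univ) (k R : ℕ)
    (hR : Fintype.card α ≤ k * R)
    (hk₁ : ∀ X : Finset α, ∃ I : Finset α, I ⊆ X ∧ M₁.Indep (↑I : Set α) ∧ X.card ≤ k * I.card)
    (hk₂ : ∀ X : Finset α, ∃ I : Finset α, I ⊆ X ∧ M₂.Indep (↑I : Set α) ∧ X.card ≤ k * I.card) :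
    ∃ m : ℕ, (m : ℝ) ≤ (k : ℝ) + 500 * (R : ℝ) * Real.log ((R : ℝ) + 1) ^ 2 ∧
      ∃ f : α → Fin m, ∀ j : Fin m,
        M₁.Indep {x : α | f x = j} ∧ M₂.Indep {x : α | f x = j} := by
  classical
  obtain ⟨_, ⟨m, ⟨f, hf1, hf2⟩, hm⟩⟩ := combined2 (r := fun b => bif b then rf M₁ else rf M₂)
    (by
      intro b
      cases b
      · exact rf_isRF M₂
      · exact rf_isRF M₁) hR
    (by
      intro b X
      cases b
      · exact rf_bound M₂ k X (hk₂ X)
      · exact rf_bound M₁ k X (hk₁ X))
  refine ⟨m, hm, fun x => ⟨f x, hf1 x (mem_univ x)⟩, fun j => ?_⟩
  have key : ∀ M : Matroid α, Ind (rf M) (univ.filter (fun e => f e = (j : ℕ))) →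
      M.Indep {x : α | (⟨f x, hf1 x (mem_univ x)⟩ : Fin m) = j} := by
    intro M hM
    have h1 := (ind_iff M _).1 hM
    have h2 : ((univ.filter (fun e => f e = (j : ℕ)) : Finset α) : Set α) =
        {x : α | (⟨f x, hf1 x (mem_univ x)⟩ : Fin m) = j} := by
      ext x
      simp [Fin.ext_iff]
    rw [h2] at h1
    exact h1
  exact ⟨key M₁ (hf2 j true), key M₂ (hf2 j false)⟩

end Pool.Agent.Results.MP_aa9a84_co.RankBound
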