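import Mathlib
import Pool.Agent.Helper151_AB.Opt

set_option autoImplicit false

/-!
# A `k`-coverable matroid and an `l`-coverable matroid: `k + l - 1` common independent sets

Let `M₁` be a `k`-coverable matroid and `M₂` an `l`-coverable matroid on the same finite set. Then
the ground set can be partitioned into `k + l - 1` common independent sets. For `l = 2` this is the
bound `k + 1` of the conjecture of Aharoni and Berger; for `l = k` it is `2 k - 1`.

Idea of the proof. Among all pairs consisting of a partition `f` into `k` sets independent in `M₁`
and a partition `g` into `l` sets independent in `M₂` (the classes being numbered by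
`0, 1, 2, …`) take one for which the sum of the products `f(e) g(e)` is maximum. Then the sets
`{e | f(e) + g(e) = c}` are independent in both matroids (`anti_ind`), and there are `k + l - 1`
of them. Indeed, let `K` be a circuit of `M₁` inside such a set. For every `y ∈ K` there is some
`x ∈ K` in another class of `f` that can replace `y` in the class of `y`, for otherwise `y` would be
spanned by the rest of its class. Hence there is a closed walk of possible exchanges inside `K`.
Its weight, that is, the change of the sum of the products, is half of the sum of the squares of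
the differences of the class numbers, so it is positive. But if there is a closed exchange walk of
positive weight, then a shortest one can be carried out (`opt_walk`), a contradiction.
-/

namespace Pool.Agent.Results.MP_aa9a84_co.SumBound

open Finset
open Pool.Agent.H478R3.Borsuk (IsRF inter)
open Pool.Agent.Helper151_AB

theorem result (α : Type) [Fintype α] (M₁ M₂ : Matroid α)
    (_hE₁ : M₁.E = Set.univ) (_hE₂ : M₂.E = Set.univ) (k l : ℕ)
    (hk : ∀ X : Finset α, ∃ I : Finset α, I ⊆ X ∧ M₁.Indep (↑I : Set α) ∧ X.card ≤ k * I.card)
    (hl : ∀ X : Finset α, ∃ I : Finset α, I ⊆ X ∧ M₂.Indep (↑I : Set α) ∧ X.card ≤ l * I.card) :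
    ∃ f : α → Fin (k + l - 1), ∀ j : Fin (k + l - 1),
      M₁.Indep {x : α | f x = j} ∧ M₂.Indep {x : α | f x = j} := by
  classical
  obtain ⟨f, hf1, hf2⟩ := two_part (rf_isRF M₁) (rf_isRF M₂) (k := k) (l := l)
    (fun X => rf_bound M₁ k X (hk X)) (fun X => rf_bound M₂ l X (hl X))
  refine ⟨fun x => ⟨f x, hf1 x⟩, fun j => ?_⟩
  have key : ∀ M : Matroid α, Ind (rf M) (univ.filter (fun e => f e = (j : ℕ))) →
      M.Indep {x : α | (⟨f x, hf1 x⟩ : Fin (k + l - 1)) = j} := by
    intro M hM
    have h1 := (ind_iff M _).1 hM
    have h2 : ((univ.filter (fun e => f e = (j : ℕ)) : Finset α) : Set α) =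
        {x : α | (⟨f x, hf1 x⟩ : Fin (k + l - 1)) = j} := by
      ext x
      simp [Fin.ext_iff]
    rw [h2] at h1
    exact h1
  exact ⟨key M₁ (hf2 j).1, key M₂ (hf2 j).2⟩

end Pool.Agent.Results.MP_aa9a84_co.SumBound
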